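import Pool.Agent.R544.AS.Red

/-!
# Arc-disjoint antistrong and strong spanning subdigraphs: NP-completeness

Reduction from 3SAT.  If a tail `x` has exactly two outgoing arcs, then each of the two subdigraphs
contains exactly one of them.  For every variable there is a closed sequence of tails and heads
`x, p, x, p, …` such that every tail has arcs to the head before and to the head after it.  All
heads are entered by an arc from a core vertex which has to be in the antistrong subdigraph, since
the tails do not help to connect the bipartite representation.  So the strong subdigraph enters
every head from a tail and makes the same choice all around a variable.  For each clause there is a
closed sequence through the tails of its three occurrences, which is a closed directed cycle of the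
strong subdigraph without exit iff the three literals are false.
-/

namespace Pool.Agent.Results.MP_c99d13_lc.AntistrongStrongNPC

open Pool.Agent.NPC Pool.Agent.R544.AS

/-- Deciding whether a digraph has two arc-disjoint spanning subdigraphs, one antistrong and the
other one strongly connected, is `NP`-complete. -/
theorem result : InNPP AntistrongStrong ∧ NPHardP AntistrongStrong :=
  ⟨inNPP, HardI.toNPHardP hardPr_AS.toHardI⟩

end Pool.Agent.Results.MP_c99d13_lc.AntistrongStrongNPC
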